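import Pool.Agent.MP_057a77_an.Mg.Riesz

open Pool.Agent.MP_057a77_an

/-- For a nonzero continuous compactly supported refinable function the following are equivalent:
a slice of the Zak transform is bounded away from zero; no frequency is a zero of all slices;
the integer shifts have a lower Riesz bound; the symbol has no symmetric zeros, is normalised and
has no nontrivial cycle. -/
theorem Pool.Agent.Results.MP_057a77_an.Characterisation.result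
    (φ : ℝ → ℂ) (d : ℤ →₀ ℂ) (h : IsRefinable φ d) :
    List.TFAE
      [∃ t₀ : ℝ, 0 < ⨅ ξ : ℝ, ‖zak φ t₀ ξ‖,
       ∀ ξ : ℝ, ∃ t : ℝ, zak φ t ξ ≠ 0,
       ∃ A : ℝ, 0 < A ∧ ∀ c : ℤ →₀ ℂ, A * ∑ k ∈ c.support, ‖c k‖ ^ 2 ≤
         ∫ x : ℝ, ‖∑ k ∈ c.support, c k * φ (x - k)‖ ^ 2,
       (¬ ∃ ξ₀ ∈ Set.Ico (0 : ℝ) 1, symbol d ξ₀ = 0 ∧ symbol d (ξ₀ + 1 / 2) = 0) ∧
         symbol d 0 = 2 ∧
         ¬ ∃ (ξ : ℝ) (n : ℕ), 1 ≤ n ∧ (∀ k : ℤ, ξ ≠ k) ∧ (∃ k : ℤ, 2 ^ n * ξ - ξ = k) ∧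
           ∀ j < n, symbol d (2 ^ j * ξ + 1 / 2) = 0] := by
  tfae_have 1 → 3 := fun ⟨_, ht⟩ => riesz_of_slice h.2.1 h.2.2.1 (ne_zero_of_iInf_pos ht)
  tfae_have 3 → 2 := fun ⟨_, hA, hc⟩ => stable_of_riesz h.2.1 h.2.2.1 hA hc
  tfae_have 2 → 1 := exists_slice h
  tfae_have 2 → 4 := symbolCond_of_stable h
  tfae_have 4 → 2 := stable_of_symbolCond h
  tfae_finish
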