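import Pool.Agent.MP_057a77_an.Counter

open Pool.Agent.MP_057a77_an

/-- The negated form of Q1, with a witness that is moreover normalised (`D (0) = 2`) and is the
uniform limit of its binary subdivision scheme. -/
theorem Pool.Agent.Results.MP_057a77_an.Counterexample.result :
    ∃ (φ : ℝ → ℂ) (d : ℤ →₀ ℂ), IsRefinable φ d ∧
      (¬ ∃ ξ₀ ∈ Set.Ico (0 : ℝ) 1, symbol d ξ₀ = 0 ∧ symbol d (ξ₀ + 1 / 2) = 0) ∧
      symbol d 0 = 2 ∧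
      (∀ ε : ℝ, 0 < ε → ∃ J : ℕ, ∀ j ≥ J, ∀ n : ℤ, ‖subdiv d j n - φ (n / 2 ^ j)‖ ≤ ε) ∧
      ∀ t : ℝ, ∃ ξ : ℝ, zak φ t ξ = 0 :=
  ⟨trapC, trapMask, trapC_refinable, fun ⟨ξ, _, h⟩ => trapMask_no_symm ξ h, symbol_trapMask_zero,
    subdiv_converges, fun t => ⟨1 / 3, zak_trapC_third t⟩⟩
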